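import Mathlib
import Pool.Agent.H614R2.Tri.V4

set_option autoImplicit false

/-!
# Maximum-perimeter triangle partition under polyhedral norms is FPT in the number of facets

MP_95c4c5_lc, Q1 (Jansen): yes. There is one program of the real random access machine
`Pool.Agent.H614R2.Tri.Prog` (unit-cost additions, subtractions, multiplications and comparisons
of real numbers; the only operations on natural numbers are adding one and truncated subtraction)
that, given `f` functionals defining a polyhedral norm on `ℝ ^ s` and `3 * n` points, computes a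
partition of the points into `n` triangles of maximum total perimeter in time at most
`g f * n ^ 4` with `g` computable.

The algorithm adds three points at a time. A signed facet for each side of each triangle gives each
point a role; an assignment of roles is a partition into triangles when it is balanced. By a
zero-sum argument some optimal assignment for three more points changes a number of roles bounded
in terms of `f`, and by an exchange argument only at points of small rank for one of the possible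
changes of roles; these are all tried.
-/

namespace Pool.Agent.Results.MP_95c4c5_lc.Max3DMFpt

open Pool.Agent.H614R2.Tri

/-- The distance `max_i |a_i · (x - y)|` given by the functionals `a_i`. -/
noncomputable def dist {f s : ℕ} (a : Fin f → Fin s → ℝ) (x y : Fin s → ℝ) : ℝ :=
  ⨆ i : Fin f, |∑ j, a i j * (x j - y j)|

/-- The functionals define a norm: the polytope `{x : |a_i · x| ≤ 1 for all i}` is bounded. -/
def IsNorm {f s : ℕ} (a : Fin f → Fin s → ℝ) : Prop :=
  ∀ x : Fin s → ℝ, (∀ i, ∑ j, a i j * x j = 0) → x = 0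

/-- Perimeter of a triangle. -/
noncomputable def perimeter {f s : ℕ} (a : Fin f → Fin s → ℝ) (x y z : Fin s → ℝ) : ℝ :=
  dist a x y + dist a y z + dist a z x

/-- `T i 0, T i 1, T i 2` (`i < n`) is a partition of the `3 * n` points into triples. -/
def IsPartition {n : ℕ} (T : Fin n → Fin 3 → Fin (3 * n)) : Prop :=
  Function.Bijective fun q : Fin n × Fin 3 => T q.1 q.2

/-- Total perimeter of the triangles of a partition. -/
noncomputable def total {f s n : ℕ} (a : Fin f → Fin s → ℝ) (P : Fin (3 * n) → Fin s → ℝ)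
    (T : Fin n → Fin 3 → Fin (3 * n)) : ℝ :=
  ∑ i, perimeter a (P (T i 0)) (P (T i 1)) (P (T i 2))

/-- The input: registers 0, 1, 2 hold `f`, `s`, `n`; the real arrays 0 and 1 hold the functionals
and the points; everything else is zero. -/
noncomputable def input {f s n : ℕ} (a : Fin f → Fin s → ℝ) (P : Fin (3 * n) → Fin s → ℝ) : Mem where
  v x := if x = 0 then f else if x = 1 then s else if x = 2 then n else 0
  a _ _ _ := 0
  r x i j :=
    if x = 0 then (if h : i < f ∧ j < s then a ⟨i, h.1⟩ ⟨j, h.2⟩ else 0)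
    else if x = 1 then (if h : i < 3 * n ∧ j < s then P ⟨i, h.1⟩ ⟨j, h.2⟩ else 0)
    else 0

/-- Number of roles. -/
def rR (f : ℕ) : ℕ := 3 * (2 * f * (2 * f) * (2 * f))

/-- Bound for the numbers of executions of the loops. -/
def bL (f : ℕ) : ℕ := rR f ^ (rR f * rR f * 4 ^ (2 ^ rR f) + 3) + 4 ^ (2 ^ rR f) + rR f + 3

/-- The function of the parameter in the running time. -/
def gg (f : ℕ) : ℕ := algo.cf * (bL f + 1) ^ algo.dp

theorem computable_gg : Computable gg := by
  have hpow : Primrec₂ ((· ^ ·) : ℕ → ℕ → ℕ) := Primrec₂.unpaired'.1 Nat.Primrec.pow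
  have hR : Primrec rR := by
    have h2f : Primrec fun f : ℕ => 2 * f := Primrec.nat_mul.comp (Primrec.const 2) Primrec.id
    exact Primrec.nat_mul.comp (Primrec.const 3)
      (Primrec.nat_mul.comp (Primrec.nat_mul.comp h2f h2f) h2f)
  have hK : Primrec fun f => 4 ^ (2 ^ rR f) :=
    hpow.comp (Primrec.const 4) (hpow.comp (Primrec.const 2) hR)
  have hL : Primrec bL :=
    Primrec.nat_add.comp (Primrec.nat_add.comp (Primrec.nat_add.comp
      (hpow.comp hR (Primrec.nat_add.comp (Primrec.nat_mul.comp (Primrec.nat_mul.comp hR hR) hK)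
        (Primrec.const 3))) hK) hR) (Primrec.const 3)
  have hg : Primrec gg :=
    Primrec.nat_mul.comp (Primrec.const _)
      (hpow.comp (Primrec.nat_add.comp hL (Primrec.const 1)) (Primrec.const _))
  exact hg.to_comp

/-- A norm needs at least as many functionals as dimensions. -/
theorem dim_le {f s : ℕ} (a : Fin f → Fin s → ℝ) (ha : IsNorm a) : s ≤ f := by
  let l : (Fin s → ℝ) →ₗ[ℝ] (Fin f → ℝ) :=
    { toFun := fun x i => ∑ j, a i j * x j
      map_add' := fun x y => by
        funext i; simp [mul_add, Finset.sum_add_distrib]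
      map_smul' := fun c x => by
        funext i
        simp only [Pi.smul_apply, smul_eq_mul, RingHom.id_apply, Finset.mul_sum]
        exact Finset.sum_congr rfl fun j _ => by ring }
  have hinj : Function.Injective l := by
    rw [← LinearMap.ker_eq_bot, LinearMap.ker_eq_bot']
    intro x hx
    exact ha x fun i => congrFun hx i
  simpa using LinearMap.finrank_le_finrank_of_injective hinj

theorem le_dist {f s : ℕ} (a : Fin f → Fin s → ℝ) (x y : Fin s → ℝ) (i : Fin f) :
    |∑ j, a i j * (x j - y j)| ≤ dist a x y :=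
  le_ciSup (f := fun i : Fin f => |∑ j, a i j * (x j - y j)|) (Set.finite_range _).bddAbove i

theorem exists_dist {f s : ℕ} (hf : 0 < f) (a : Fin f → Fin s → ℝ) (x y : Fin s → ℝ) :
    ∃ i, dist a x y = |∑ j, a i j * (x j - y j)| := by
  have : Nonempty (Fin f) := ⟨⟨0, hf⟩⟩
  obtain ⟨i, hi⟩ := exists_eq_ciSup_of_finite (f := fun i : Fin f => |∑ j, a i j * (x j - y j)|)
  exact ⟨i, hi.symm⟩

/-- Max-3DM under polyhedral norms with `2 * f` facets is solved in time `g f * n ^ 4`. -/
theorem result : ∃ (A : Prog) (g : ℕ → ℕ), Computable g ∧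
    ∀ (f s n : ℕ) (a : Fin f → Fin s → ℝ) (P : Fin (3 * n) → Fin s → ℝ),
      0 < f → 0 < n → IsNorm a →
      ∃ (m : Mem) (t : ℕ), Runs A (input a P) m t ∧ t ≤ g f * n ^ 4 ∧
        ∃ T : Fin n → Fin 3 → Fin (3 * n), IsPartition T ∧ (∀ i j, (T i j : ℕ) = m.a 0 i j) ∧
          ∀ T' : Fin n → Fin 3 → Fin (3 * n), IsPartition T' → total a P T' ≤ total a P T := by
  refine ⟨algo, gg, computable_gg, ?_⟩
  intro f s n a P hf hn ha
  have hsf := dim_le a ha
  obtain ⟨R, hR⟩ : ∃ R, R = rR f := ⟨_, rfl⟩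
  obtain ⟨K, hK⟩ : ∃ K, K = 4 ^ (2 ^ R) := ⟨_, rfl⟩
  obtain ⟨E, hE⟩ : ∃ E, E = R ^ (R * R * K + 3) := ⟨_, rfl⟩
  obtain ⟨L, hL⟩ : ∃ L, L = bL f * n := ⟨_, rfl⟩
  have hb : bL f = E + K + R + 3 := by
    rw [hE, hK, hR]; rfl
  have hbL : bL f ≤ L := by rw [hL]; exact Nat.le_mul_of_pos_right _ hn
  have hRf : 2 * f ≤ R := by
    rw [hR]; unfold rR
    have h1 : 1 ≤ 2 * f * (2 * f) := by nlinarith
    nlinarith
  have hR3 : 3 ≤ R := by
    rw [hR]; unfold rR
    have h1 : 1 ≤ 2 * f * (2 * f) * (2 * f) := by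
      have : 1 ≤ 2 * f := by omega
      exact Nat.mul_le_mul (Nat.mul_le_mul this this) this
    omega
  have hRL : R ≤ L := by omega
  have hKL : 4 ^ (2 ^ R) ≤ L := by rw [← hK]; omega
  have hEL : R ^ (R * R * K + 3) ≤ L := by rw [← hE]; omega
  have hnL : 3 * n ≤ L := by rw [hL]; exact Nat.mul_le_mul_right _ (by omega)
  have hK3 : 3 * 4 ^ (2 ^ R - 1) ≤ K := by
    have : 2 ^ R = (2 ^ R - 1) + 1 := by
      have : 1 ≤ 2 ^ R := Nat.one_le_two_pow
      omega
    rw [hK]
    conv_rhs => rw [this, pow_succ]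
    omega
  -- the run
  have key : H L algo (input a P) (fun m =>
      ∃ T : Fin n → Fin 3 → Fin (3 * n), IsPartition T ∧ (∀ i j, (T i j : ℕ) = m.a 0 i j) ∧
        ∀ T' : Fin n → Fin 3 → Fin (3 * n), IsPartition T' → total a P T' ≤ total a P T) := by
    refine H.seq ((c3n_spec (n := n) (input a P) rfl (by omega)).next ?_)
    intro m1 hs1 h31
    refine H.seq ((c2f_spec (f := f) m1 (hs1.v 0 rfl) (by omega)).next ?_)
    intro m2 hs2 h42
    refine H.seq ((cneg_spec (f := f) (s := s) m2 ((hs2.v 0 rfl).trans (hs1.v 0 rfl))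
      ((hs2.v 1 rfl).trans (hs1.v 1 rfl)) (by omega) (by omega)).next ?_)
    rintro m3 hs3 ⟨hA3, hA3'⟩
    have h43 : m3.v 4 = 2 * f := (hs3.v 4 rfl).trans h42
    refine H.seq ((ctab_spec m3 h43 (by omega)).next ?_)
    rintro m4 hs4 ⟨h54, htab⟩
    have h54' : m4.v 5 = R := h54.trans hR.symm
    refine H.seq ((cK_spec m4 h54' hRL hKL).next ?_)
    intro m5 hs5 h65
    rw [← hK] at h65
    have h35 : m5.v 3 = 3 * n := (hs5.v 3 rfl).trans ((hs4.v 3 rfl).trans ((hs3.v 3 rfl).trans
      ((hs2.v 3 rfl).trans h31)))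
    have h45 : m5.v 4 = 2 * f := (hs5.v 4 rfl).trans ((hs4.v 4 rfl).trans h43)
    have h15 : m5.v 1 = s := (hs5.v 1 rfl).trans ((hs4.v 1 rfl).trans ((hs3.v 1 rfl).trans
      ((hs2.v 1 rfl).trans (hs1.v 1 rfl))))
    refine H.seq ((cV_spec m5 h35 h45 h15 hnL (by omega) (by omega)).next ?_)
    intro m6 hs6 hV
    -- the values of the functionals
    set V : ℕ → ℕ → ℝ := m6.r 2 with hVdef
    have hr0 : m5.r 0 = m3.r 0 := (hs5.r 0 rfl).trans (hs4.r 0 rfl)
    have hr1 : m5.r 1 = (input a P).r 1 := (hs5.r 1 rfl).trans ((hs4.r 1 rfl).trans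
      ((hs3.r 1 rfl).trans ((hs2.r 1 rfl).trans (hs1.r 1 rfl))))
    have hr02 : m2.r 0 = (input a P).r 0 := (hs2.r 0 rfl).trans (hs1.r 0 rfl)
    have hin0 : ∀ (i : Fin f) (j : Fin s), (input a P).r 0 i j = a i j := by
      intro i j
      simp [input]
    have hin1 : ∀ (p : Fin (3 * n)) (j : Fin s), (input a P).r 1 p j = P p j := by
      intro i j
      simp [input]
    have hV1 : ∀ (p : Fin (3 * n)) (i : Fin f), V p i = ∑ j, a i j * P p j := by
      intro p i
      rw [hV p p.2 i (by omega), ← Fin.sum_univ_eq_sum_range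
        (fun j => m5.r 0 i j * m5.r 1 p j)]
      refine Finset.sum_congr rfl fun j _ => ?_
      rw [hr0, hr1, hA3 i i.2 j j.2, hr02, hin0, hin1]
    have hV2 : ∀ (p : Fin (3 * n)) (i : Fin f), V p (f + i) = - ∑ j, a i j * P p j := by
      intro p i
      rw [hV p p.2 (f + i) (by omega), ← Fin.sum_univ_eq_sum_range
        (fun j => m5.r 0 (f + i) j * m5.r 1 p j), ← Finset.sum_neg_distrib]
      refine Finset.sum_congr rfl fun j _ => ?_
      rw [hr0, hr1, hA3' i i.2 j j.2, hr02, hin0, hin1]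
      ring
    have hdiff : ∀ (p p' : Fin (3 * n)) (i : Fin f),
        ∑ j, a i j * (P p j - P p' j) = ∑ j, a i j * P p j - ∑ j, a i j * P p' j := by
      intro p p' i
      rw [← Finset.sum_sub_distrib]
      exact Finset.sum_congr rfl fun j _ => by ring
    let d : ℕ → ℕ → ℝ := fun p p' => if h : p < 3 * n ∧ p' < 3 * n then
      dist a (P ⟨p, h.1⟩) (P ⟨p', h.2⟩) else 0
    have hd : ∀ (p p' : Fin (3 * n)), d p p' = dist a (P p) (P p') := by
      intro p p'
      simp [d]
    have hd1 : ∀ p < 3 * n, ∀ p' < 3 * n, ∀ σ < 2 * f, V p σ - V p' σ ≤ d p p' := by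
      intro p hp p' hp' σ hσ
      have e := hd ⟨p, hp⟩ ⟨p', hp'⟩
      simp only at e
      rw [e]
      by_cases h : σ < f
      · have h1 := hV1 ⟨p, hp⟩ ⟨σ, h⟩
        have h2 := hV1 ⟨p', hp'⟩ ⟨σ, h⟩
        have h3 := le_dist a (P ⟨p, hp⟩) (P ⟨p', hp'⟩) ⟨σ, h⟩
        rw [hdiff] at h3
        simp only at h1 h2
        rw [h1, h2]
        exact (le_abs_self _).trans h3
      · obtain ⟨i, rfl⟩ := Nat.exists_eq_add_of_le (not_lt.mp h)
        have hi : i < f := by omega
        have h1 := hV2 ⟨p, hp⟩ ⟨i, hi⟩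
        have h2 := hV2 ⟨p', hp'⟩ ⟨i, hi⟩
        have h3 := le_dist a (P ⟨p, hp⟩) (P ⟨p', hp'⟩) ⟨i, hi⟩
        rw [hdiff] at h3
        simp only at h1 h2
        rw [h1, h2]
        refine le_trans ?_ h3
        have := neg_le_abs (∑ j, a ⟨i, hi⟩ j * P ⟨p, hp⟩ j - ∑ j, a ⟨i, hi⟩ j * P ⟨p', hp'⟩ j)
        linarith
    have hd2 : ∀ p < 3 * n, ∀ p' < 3 * n, ∃ σ < 2 * f, V p σ - V p' σ = d p p' := by
      intro p hp p' hp'
      have e := hd ⟨p, hp⟩ ⟨p', hp'⟩
      simp only at e
      rw [e]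
      obtain ⟨i, hi⟩ := exists_dist hf a (P ⟨p, hp⟩) (P ⟨p', hp'⟩)
      rw [hi, hdiff]
      rcases abs_choice (∑ j, a i j * P ⟨p, hp⟩ j - ∑ j, a i j * P ⟨p', hp'⟩ j) with h | h
      · refine ⟨i, by omega, ?_⟩
        rw [h]
        have h1 := hV1 ⟨p, hp⟩ i
        have h2 := hV1 ⟨p', hp'⟩ i
        simp only at h1 h2
        rw [h1, h2]
      · refine ⟨f + i, by omega, ?_⟩
        rw [h]
        have h1 := hV2 ⟨p, hp⟩ i
        have h2 := hV2 ⟨p', hp'⟩ i
        simp only at h1 h2
        rw [h1, h2]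
        ring
    -- the context of the main phase
    have ha5 : m6.a 5 = m4.a 5 := (hs6.a 5 rfl).trans (hs5.a 5 rfl)
    have ha6 : m6.a 6 = m4.a 6 := (hs6.a 6 rfl).trans (hs5.a 6 rfl)
    have ha7 : m6.a 7 = m4.a 7 := (hs6.a 7 rfl).trans (hs5.a 7 rfl)
    have hctx : Ctx R K (wt (2 * f) V) m6 := by
      refine ⟨(hs6.v 5 rfl).trans ((hs5.v 5 rfl).trans h54'), (hs6.v 6 rfl).trans h65, ?_, ?_⟩
      · intro r hr
        rw [ha5]
        exact (htab r (by rw [hR] at hr; exact hr)).1
      · intro p r hr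
        have hr' : r < 3 * (2 * f * (2 * f) * (2 * f)) := by rw [hR] at hr; exact hr
        rw [ha6, ha7, (htab r hr').2.1, (htab r hr').2.2]
        rfl
    have h26 : m6.v 2 = n := (hs6.v 2 rfl).trans ((hs5.v 2 rfl).trans ((hs4.v 2 rfl).trans
      ((hs3.v 2 rfl).trans ((hs2.v 2 rfl).trans (hs1.v 2 rfl)))))
    refine H.seq ((steps_spec m6 hctx h26 hR3 hK3 hnL hRL hEL).next ?_)
    intro m7 hs7 hopt
    rw [show R = 3 * (2 * f * (2 * f) * (2 * f)) from hR] at hopt
    have h37 : m7.v 3 = 3 * n := (hs7.v 3 rfl).trans ((hs6.v 3 rfl).trans h35)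
    have hctx7 := hctx.same hs7 (by rfl)
    refine (output_spec (q := 2 * f * (2 * f) * (2 * f)) m7 h37 hnL (fun p => rfl) hopt.1
      (fun r hr => hctx7.pos r (by rw [hR]; exact hr))).post ?_
    intro m8 hout
    obtain ⟨T, hT1, hT2, hT3⟩ := final_math V d hd1 hd2 _ hopt (m8.a 0) hout
    refine ⟨T, hT1, hT2, ?_⟩
    intro T' hT'
    have htot : ∀ T : Fin n → Fin 3 → Fin (3 * n), total a P T = tot d T := by
      intro T
      unfold total tot perimeter
      refine Finset.sum_congr rfl fun i _ => ?_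
      rw [hd, hd, hd]
    rw [htot, htot]
    exact hT3 T' hT'
  obtain ⟨m, t, h1, h2, h3⟩ := key
  refine ⟨m, t, h1, h2.trans ?_, h3⟩
  unfold gg
  rw [show n ^ 4 = n ^ algo.dp from rfl, mul_assoc, ← mul_pow]
  apply Nat.mul_le_mul_left
  apply Nat.pow_le_pow_left
  rw [hL]
  nlinarith

end Pool.Agent.Results.MP_95c4c5_lc.Max3DMFpt
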